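import Pool.Agent.helper7.PQ.Spec

/-! # MP_ebc808_nt, row pq:EXC: exceptional pairs -/

set_option autoImplicit false

open Finset PowerSeries

noncomputable section

namespace Pool.Agent.PQ

open Pool.Agent.EP

theorem EXC_lt (B Y u N : ℕ) (hB : 0 < B) (h : B * u ^ 2 ≤ N) (hN : N ≤ Y) : u < Nat.sqrt Y + 1 := by
  have h0 : 1 * u ^ 2 ≤ B * u ^ 2 := Nat.mul_le_mul_right _ hB
  have h1 : u ≤ Nat.sqrt Y := by
    rw [Nat.le_sqrt']
    omega
  omega

open Classical in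
/-- EXC, the count in natural numbers -/
theorem EXC_nat (B Q₁ Q₂ y : ℕ) (hB : 0 < B) (h1 : 0 < Q₁) (h2 : 0 < Q₂) :
    #{x ∈ Ioc y (2 * y) ×ˢ Ioc y (2 * y) | x.1.Prime ∧ x.2.Prime ∧ ExcP B Q₁ Q₂ x.1 x.2} ≤
      (2 * Q₂ + 2 * Q₁ + 1) * (Nat.sqrt (2 * (Q₁ + Q₂) * y) + 1) * y := by
  set S : ℕ := Nat.sqrt (2 * (Q₁ + Q₂) * y) + 1 with hS
  let A : Finset (ℕ × ℕ) := (Ioc y (2 * y) ×ˢ range S).image fun x => (x.1, (B * x.2 ^ 2 - Q₁ * x.1) / Q₂)
  let C : Finset (ℕ × ℕ) := (Ioc y (2 * y) ×ˢ (range S ×ˢ range (2 * Q₂))).image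
    fun x => ((Q₂ * x.1 - B * x.2.1 ^ 2) / x.2.2, x.1)
  let D : Finset (ℕ × ℕ) := (Ioc y (2 * y) ×ˢ (range S ×ˢ range (2 * Q₁))).image
    fun x => (x.1, (Q₁ * x.1 - B * x.2.1 ^ 2) / x.2.2)
  have hsub : {x ∈ Ioc y (2 * y) ×ˢ Ioc y (2 * y) | x.1.Prime ∧ x.2.Prime ∧ ExcP B Q₁ Q₂ x.1 x.2} ⊆ A ∪ (C ∪ D) := by
    rintro ⟨P, P'⟩ hx
    rw [mem_filter, mem_product] at hx
    dsimp only at hx
    obtain ⟨⟨hP, hP'⟩, -, -, hx⟩ := hx
    have hP0 := hP
    have hP0' := hP'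
    rw [mem_Ioc] at hP hP'
    obtain ⟨hP1, hP2⟩ := hP
    obtain ⟨hP1', hP2'⟩ := hP'
    have e1 : Q₁ * P ≤ 2 * (Q₁ * y) := by
      calc Q₁ * P ≤ Q₁ * (2 * y) := Nat.mul_le_mul_left _ hP2
        _ = 2 * (Q₁ * y) := by ring
    have e2 : Q₂ * P' ≤ 2 * (Q₂ * y) := by
      calc Q₂ * P' ≤ Q₂ * (2 * y) := Nat.mul_le_mul_left _ hP2'
        _ = 2 * (Q₂ * y) := by ring
    have e3 : 2 * (Q₁ + Q₂) * y = 2 * (Q₁ * y) + 2 * (Q₂ * y) := by ring
    rw [mem_union, mem_union]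
    unfold ExcP at hx
    rcases hx with ⟨u, hu⟩ | ⟨u, hu, k, hk⟩ | ⟨u, hu, k, hk⟩
    · left
      refine mem_image.mpr ⟨(P, u), mem_product.mpr ⟨hP0, ?_⟩, ?_⟩
      · rw [mem_range, hS]
        exact EXC_lt B _ u (Q₁ * P + Q₂ * P') hB (by omega) (by omega)
      · dsimp only
        rw [Prod.mk.injEq]
        refine ⟨rfl, ?_⟩
        have h3 : B * u ^ 2 - Q₁ * P = P' * Q₂ := by
          rw [mul_comm P' Q₂]
          omega
        rw [h3]
        exact Nat.mul_div_cancel _ h2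
    · right
      left
      have hk0 : 0 < k := by
        rcases Nat.eq_zero_or_pos k with h | h
        · subst h
          omega
        · exact h
      refine mem_image.mpr ⟨(P', (u, k)), mem_product.mpr ⟨hP0', mem_product.mpr ⟨?_, ?_⟩⟩, ?_⟩
      · rw [mem_range, hS]
        exact EXC_lt B _ u (Q₂ * P') hB (by omega) (by omega)
      · rw [mem_range]
        dsimp only
        by_contra h3
        push Not at h3
        have h4 : P * (2 * Q₂) ≤ P * k := Nat.mul_le_mul_left P h3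
        have h5 : Q₂ * (y + 1) ≤ Q₂ * P := Nat.mul_le_mul_left Q₂ hP1
        have h6 : P * (2 * Q₂) = 2 * (Q₂ * P) := by ring
        have h7 : Q₂ * (y + 1) = Q₂ * y + Q₂ := by ring
        omega
      · dsimp only
        rw [Prod.mk.injEq]
        refine ⟨?_, rfl⟩
        rw [hk]
        exact Nat.mul_div_cancel _ hk0
    · right
      right
      have hk0 : 0 < k := by
        rcases Nat.eq_zero_or_pos k with h | h
        · subst h
          omega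
        · exact h
      refine mem_image.mpr ⟨(P, (u, k)), mem_product.mpr ⟨hP0, mem_product.mpr ⟨?_, ?_⟩⟩, ?_⟩
      · rw [mem_range, hS]
        exact EXC_lt B _ u (Q₁ * P) hB (by omega) (by omega)
      · rw [mem_range]
        dsimp only
        by_contra h3
        push Not at h3
        have h4 : P' * (2 * Q₁) ≤ P' * k := Nat.mul_le_mul_left P' h3
        have h5 : Q₁ * (y + 1) ≤ Q₁ * P' := Nat.mul_le_mul_left Q₁ hP1'
        have h6 : P' * (2 * Q₁) = 2 * (Q₁ * P') := by ring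
        have h7 : Q₁ * (y + 1) = Q₁ * y + Q₁ := by ring
        omega
      · dsimp only
        rw [Prod.mk.injEq]
        refine ⟨rfl, ?_⟩
        rw [hk]
        exact Nat.mul_div_cancel _ hk0
  have hcI : #(Ioc y (2 * y)) = y := by
    rw [Nat.card_Ioc]
    omega
  have hA : #A ≤ y * S := by
    refine le_trans card_image_le ?_
    rw [card_product, card_range, hcI]
  have hC : #C ≤ y * (S * (2 * Q₂)) := by
    refine le_trans card_image_le ?_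
    rw [card_product, card_product, card_range, card_range, hcI]
  have hD : #D ≤ y * (S * (2 * Q₁)) := by
    refine le_trans card_image_le ?_
    rw [card_product, card_product, card_range, card_range, hcI]
  calc #{x ∈ Ioc y (2 * y) ×ˢ Ioc y (2 * y) | x.1.Prime ∧ x.2.Prime ∧ ExcP B Q₁ Q₂ x.1 x.2}
      ≤ #(A ∪ (C ∪ D)) := card_le_card hsub
    _ ≤ #A + (#C + #D) :=
      (card_union_le _ _).trans (Nat.add_le_add_left (card_union_le _ _) _)
    _ ≤ y * S + (y * (S * (2 * Q₂)) + y * (S * (2 * Q₁))) :=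
      Nat.add_le_add hA (Nat.add_le_add hC hD)
    _ = (2 * Q₂ + 2 * Q₁ + 1) * S * y := by ring

open Classical in
/-- EXC -/
theorem EXC : EXC_stmt := by
  intro B Q₁ Q₂ hB h1 h2
  set K : ℝ := 2 * (Q₁ + Q₂ : ℝ) with hK
  have hK0 : 0 < K := by
    have : (0 : ℝ) < Q₁ := by exact_mod_cast h1
    have : (0 : ℝ) < Q₂ := by exact_mod_cast h2
    positivity
  refine ⟨(K + 1) * (√K + 1), 1, by positivity, fun y hy => ?_⟩
  have h := EXC_nat B Q₁ Q₂ y hB h1 h2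
  have hy1 : (1 : ℝ) ≤ √(y : ℝ) := by
    rw [Real.one_le_sqrt]
    exact_mod_cast hy
  have hS : (Nat.sqrt (2 * (Q₁ + Q₂) * y) : ℝ) ≤ √K * √(y : ℝ) := by
    rw [← Real.sqrt_mul hK0.le]
    have h3 : (Nat.sqrt (2 * (Q₁ + Q₂) * y) : ℝ) ≤ √((2 * (Q₁ + Q₂) * y : ℕ) : ℝ) := Real.nat_sqrt_le_real_sqrt
    refine h3.trans (le_of_eq ?_)
    congr 1
    rw [hK]
    push_cast
    ring
  have h4 : ((#{x ∈ Ioc y (2 * y) ×ˢ Ioc y (2 * y) | x.1.Prime ∧ x.2.Prime ∧ ExcP B Q₁ Q₂ x.1 x.2} : ℕ) : ℝ) ≤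
      ((2 * Q₂ + 2 * Q₁ + 1 : ℕ) : ℝ) * ((Nat.sqrt (2 * (Q₁ + Q₂) * y) : ℝ) + 1) * y := by
    exact_mod_cast h
  refine h4.trans ?_
  have h5 : ((2 * Q₂ + 2 * Q₁ + 1 : ℕ) : ℝ) = K + 1 := by
    rw [hK]
    push_cast
    ring
  rw [h5]
  have hy0 : (0 : ℝ) ≤ y := Nat.cast_nonneg y
  have h6 : (Nat.sqrt (2 * (Q₁ + Q₂) * y) : ℝ) + 1 ≤ (√K + 1) * √(y : ℝ) := by
    nlinarith
  calc (K + 1) * ((Nat.sqrt (2 * (Q₁ + Q₂) * y) : ℝ) + 1) * y ≤ (K + 1) * ((√K + 1) * √(y : ℝ)) * y := by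
        gcongr
    _ = (K + 1) * (√K + 1) * y * √(y : ℝ) := by ring

end Pool.Agent.PQ
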